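import Mathlib
import Pool.Agent.Y772.ND.Stm

/-!
The quadratic form of a symmetric finite set of points as a mean square
(after `Pool/Agent/H385R2/Quad.lean`).
-/

set_option autoImplicit false

open Complex MeasureTheory
open scoped ComplexConjugate

namespace Pool.Agent.Y50.ND

open Pool.Agent.Y772.ND

theorem pi_cpow_half : ((Real.pi : ℂ) / 2) ^ (1 / 2 : ℂ) = (Real.sqrt (Real.pi / 2) : ℂ) := by
  have h : (0 : ℝ) ≤ Real.pi / 2 := by positivity
  rw [show (1 / 2 : ℂ) = ((1 / 2 : ℝ) : ℂ) by push_cast; ring,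
    show ((Real.pi : ℂ) / 2) = ((Real.pi / 2 : ℝ) : ℂ) by push_cast; ring,
    ← Complex.ofReal_cpow h, ← Real.sqrt_eq_rpow]

theorem gauss_pair_eq (z w : ℂ) (t : ℝ) :
    cexp (-(z - t) ^ 2) * cexp (-(w - t) ^ 2) =
      cexp ((-2 : ℂ) * (t : ℂ) ^ 2 + (2 * (z + w)) * t + (-(z ^ 2 + w ^ 2))) := by
  rw [← Complex.exp_add]; congr 1; ring

theorem gauss_pair_int (z w : ℂ) :
    Integrable (fun t : ℝ => cexp (-(z - t) ^ 2) * cexp (-(w - t) ^ 2)) := by
  simp_rw [gauss_pair_eq]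
  exact integrable_cexp_quadratic' (by simp) _ _

theorem gauss_pair (z w : ℂ) :
    ∫ t : ℝ, cexp (-(z - t) ^ 2) * cexp (-(w - t) ^ 2) =
      (Real.sqrt (Real.pi / 2) : ℂ) * cexp (-(z - w) ^ 2 / 2) := by
  simp_rw [gauss_pair_eq]
  rw [integral_cexp_quadratic (by simp), neg_neg, pi_cpow_half]
  congr 2
  ring

section

variable (Z : Finset ℂ) (hZ : ∀ z ∈ Z, (starRingEnd ℂ) z ∈ Z) (a : ℂ → ℂ)
    (hac : ∀ z ∈ Z, a ((starRingEnd ℂ) z) = (starRingEnd ℂ) (a z))

/-- mean square of the weighted sum -/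
noncomputable def GG (u : ℝ) : ℝ := ∫ t : ℝ, ‖Az Z a u t‖ ^ 2

include hZ in
theorem sum_conj {M : Type*} [AddCommMonoid M] (f : ℂ → M) :
    ∑ s ∈ Z, f (conj s) = ∑ s ∈ Z, f s := by
  refine Finset.sum_nbij' (fun s => conj s) (fun s => conj s) ?_ ?_ ?_ ?_ ?_
  · intro s hs; exact hZ s hs
  · intro s hs; exact hZ s hs
  · intro s _; simp
  · intro s _; simp
  · intro s _; rfl

include hZ hac in
theorem GG_eq (u : ℝ) : ((GG Z a u : ℝ) : ℂ) = (Real.sqrt (Real.pi / 2) : ℂ) *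
    ∑ z ∈ Z, ∑ w ∈ Z, a z * a w *
      (cexp (I * u * (z - w)) * cexp (-(z - w) ^ 2 / 2)) := by
  have h1 : ∀ t : ℝ, ((‖Az Z a u t‖ ^ 2 : ℝ) : ℂ) =
      ∑ z ∈ Z, ∑ w ∈ Z, a z * conj (a w) *
        (cexp (I * u * (z - conj w)) *
        (cexp (-(z - t) ^ 2) * cexp (-(conj w - t) ^ 2))) := by
    intro t
    unfold Az
    rw [← Complex.normSq_eq_norm_sq, ← Complex.mul_conj, map_sum, Finset.sum_mul_sum]
    refine Finset.sum_congr rfl fun s _ => Finset.sum_congr rfl fun s' _ => ?_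
    rw [map_mul, map_mul, ← Complex.exp_conj, ← Complex.exp_conj]
    have e1 : conj (I * u * s') = -(I * u * conj s') := by simp
    have e2 : conj (-(s' - (t : ℂ)) ^ 2) = -(conj s' - t) ^ 2 := by
      simp only [map_neg, map_pow, map_sub, Complex.conj_ofReal]
    have : cexp (I * u * (s - conj s')) =
        cexp (I * u * s) * cexp (-(I * u * conj s')) := by
      rw [← Complex.exp_add]; congr 1; ring
    rw [this, e1, e2]; ring
  unfold GG
  have h0 : ((∫ t : ℝ, ‖Az Z a u t‖ ^ 2 : ℝ) : ℂ) = ∫ t : ℝ, ((‖Az Z a u t‖ ^ 2 : ℝ) : ℂ) :=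
    integral_ofReal.symm
  rw [h0]
  simp_rw [h1]
  rw [integral_finsetSum]
  swap
  · intro s _
    refine integrable_finsetSum _ fun s' _ => ?_
    exact ((gauss_pair_int _ _).const_mul _).const_mul _
  rw [Finset.mul_sum]
  refine Finset.sum_congr rfl fun s _ => ?_
  rw [integral_finsetSum]
  swap
  · intro s' _
    exact ((gauss_pair_int _ _).const_mul _).const_mul _
  rw [Finset.mul_sum]
  have h2 : ∀ s' ∈ Z, ∫ t : ℝ, a s * conj (a s') *
        (cexp (I * u * (s - conj s')) *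
        (cexp (-(s - t) ^ 2) * cexp (-(conj s' - t) ^ 2))) =
      (fun w => (Real.sqrt (Real.pi / 2) : ℂ) * (a s * a w *
      (cexp (I * u * (s - w)) * cexp (-(s - w) ^ 2 / 2)))) (conj s') := by
    intro s' hs'
    rw [integral_const_mul, integral_const_mul, gauss_pair]
    simp only
    rw [hac s' hs']
    ring
  rw [Finset.sum_congr rfl h2]
  exact sum_conj Z hZ (fun w => (Real.sqrt (Real.pi / 2) : ℂ) * (a s * a w *
      (cexp (I * u * (s - w)) * cexp (-(s - w) ^ 2 / 2))))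

include hZ hac in
theorem GG_cont : Continuous (fun u : ℝ => GG Z a u) := by
  have h : Continuous (fun u : ℝ => ((GG Z a u : ℝ) : ℂ)) := by
    simp_rw [GG_eq Z hZ a hac]
    fun_prop
  exact (Complex.continuous_re.comp h).congr fun u => by simp

include hZ hac in
theorem GG_even (u : ℝ) : GG Z a (-u) = GG Z a u := by
  apply Complex.ofReal_injective
  rw [GG_eq Z hZ a hac, GG_eq Z hZ a hac, Finset.sum_comm]
  congr 1
  refine Finset.sum_congr rfl fun s _ => Finset.sum_congr rfl fun s' _ => ?_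
  have e1 : I * ((-u : ℝ) : ℂ) * (s' - s) = I * u * (s - s') := by push_cast; ring
  have e2 : -(s' - s) ^ 2 / 2 = -(s - s') ^ 2 / 2 := by ring
  rw [e1, e2]; ring

end

theorem sqrt_two_pi : Real.sqrt (2 / Real.pi) * Real.sqrt (Real.pi / 2) = 1 := by
  have h : (0 : ℝ) ≤ 2 / Real.pi := by positivity
  rw [← Real.sqrt_mul h]
  have : 2 / Real.pi * (Real.pi / 2) = 1 := by
    have := Real.pi_pos.ne'
    field_simp
  rw [this, Real.sqrt_one]

/-- the square of the kernel -/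
theorem kernel_sq (κ : ℂ → ℂ) (R : ℝ → ℝ)
    (hsq : ∀ z : ℂ, κ z ^ 2 = ∫ α in (-1 : ℝ)..1, (R α : ℂ) * cexp (I * z * α)) (Λ : ℝ) (s : ℂ) :
    (κ (Λ * s) * cexp (-s ^ 2 / 4)) ^ 2 = ∫ α in (-1 : ℝ)..1, (R α : ℂ) *
      (cexp (I * ((Λ * α : ℝ) : ℂ) * s) * cexp (-s ^ 2 / 2)) := by
  rw [mul_pow, hsq, ← intervalIntegral.integral_mul_const]
  refine intervalIntegral.integral_congr fun α _ => ?_
  rw [← Complex.exp_nat_mul]
  have e1 : I * (Λ * s) * (α : ℂ) = I * ((Λ * α : ℝ) : ℂ) * s := by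
    push_cast; ring
  have e2 : ((2 : ℕ) : ℂ) * (-s ^ 2 / 4) = -s ^ 2 / 2 := by
    push_cast; ring
  rw [e1, e2]; ring

/-- the integral of a function `G` with `G (-α) = conj (G α)` -/
theorem even_half (G : ℝ → ℝ) (hGc : Continuous G) (hGe : ∀ α, G (-α) = G α) :
    ∫ α in (-1 : ℝ)..1, G α = 2 * ∫ α in (0 : ℝ)..1, G α := by
  rw [← intervalIntegral.integral_add_adjacent_intervals (b := 0)
    (hGc.intervalIntegrable _ _) (hGc.intervalIntegrable _ _)]
  have h5 : ∫ α in (-1 : ℝ)..0, G α = ∫ α in (0 : ℝ)..1, G α := by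
    have := intervalIntegral.integral_comp_neg (a := (0 : ℝ)) (b := 1) G
    simp_rw [hGe] at this
    rw [neg_zero] at this
    exact this.symm
  rw [h5]; ring

theorem t_QEXP : P_QEXP := by
  intro κ R hcont hev hsq Λ hΛ Z a hZ hac
  have h2 : ∑ s ∈ Z, ∑ s' ∈ Z, a s * a s' * (κ (Λ * (s - s')) * cexp (-(s - s') ^ 2 / 4)) ^ 2 =
      ∫ α in (-1 : ℝ)..1, ((Real.sqrt (2 / Real.pi) * (R α * GG Z a (Λ * α)) : ℝ) : ℂ) := by
    have h3 : ∀ α : ℝ, ((Real.sqrt (2 / Real.pi) * (R α * GG Z a (Λ * α)) : ℝ) : ℂ) =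
        ∑ s ∈ Z, ∑ s' ∈ Z, a s * a s' * ((R α : ℂ) *
      (cexp (I * ((Λ * α : ℝ) : ℂ) * (s - s')) * cexp (-(s - s') ^ 2 / 2))) := by
      intro α
      have hs : (Real.sqrt (2 / Real.pi) : ℂ) * (Real.sqrt (Real.pi / 2) : ℂ) = 1 := by
        rw [← Complex.ofReal_mul, sqrt_two_pi, Complex.ofReal_one]
      rw [Complex.ofReal_mul, Complex.ofReal_mul, GG_eq Z hZ a hac]
      have : ∀ x : ℂ, (Real.sqrt (2 / Real.pi) : ℂ) * ((R α : ℂ) *
          ((Real.sqrt (Real.pi / 2) : ℂ) * x)) = (R α : ℂ) * x := by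
        intro x
        linear_combination (R α : ℂ) * x * hs
      rw [this, Finset.mul_sum]
      refine Finset.sum_congr rfl fun s _ => ?_
      rw [Finset.mul_sum]
      refine Finset.sum_congr rfl fun s' _ => ?_
      ring
    simp_rw [h3]
    have hc : ∀ s s' : ℂ, Continuous fun α : ℝ => a s * a s' * ((R α : ℂ) *
      (cexp (I * ((Λ * α : ℝ) : ℂ) * (s - s')) * cexp (-(s - s') ^ 2 / 2))) := by
      intro s s'
      fun_prop
    rw [intervalIntegral.integral_finsetSum]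
    swap
    · intro s _
      exact (continuous_finsetSum _ fun s' _ => hc s s').intervalIntegrable _ _
    refine Finset.sum_congr rfl fun s _ => ?_
    rw [intervalIntegral.integral_finsetSum]
    swap
    · intro s' _
      exact (hc s s').intervalIntegrable _ _
    refine Finset.sum_congr rfl fun s' _ => ?_
    rw [kernel_sq κ R hsq, intervalIntegral.integral_const_mul]
  rw [h2, intervalIntegral.integral_ofReal, Complex.ofReal_re,
    intervalIntegral.integral_const_mul, even_half]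
  · show Real.sqrt (2 / Real.pi) * (2 * ∫ α in (0 : ℝ)..1, R α * GG Z a (Λ * α)) =
      2 * Real.sqrt (2 / Real.pi) * ∫ α in (0 : ℝ)..1, R α * GG Z a (Λ * α)
    ring
  · exact hcont.mul ((GG_cont Z hZ a hac).comp (by fun_prop))
  · intro α
    rw [hev, mul_neg, GG_even Z hZ a hac]

end Pool.Agent.Y50.ND
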